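import Mathlib

set_option autoImplicit false

/-!
# A geodesic of the jet space `J³` which is not equi-optimal
-/

open Real Set Filter Topology MeasureTheory

namespace Pool.Agent.Results.MP_8ed827_gt.NotEquiOptimal

/-- The jet space `J^k = ℝ^{k+2}`: the coordinates of `q` are `q 0 = x` and `q (j + 1) = u_j`,
`j = 0, …, k`. -/
abbrev J (k : ℕ) : Type := Fin (k + 2) → ℝ

/-- `X₁ = ∂_x + ∑_{j < k} u_{j+1} ∂_{u_j}`. -/
def X1 (k : ℕ) (q : J k) : J k := fun i =>
  if (i : ℕ) = 0 then 1 else if h : (i : ℕ) + 1 < k + 2 then q ⟨i + 1, h⟩ else 0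

/-- `X₂ = ∂_{u_k}`. -/
def X2 (k : ℕ) : J k := fun i => if (i : ℕ) = k + 1 then 1 else 0

/-- `Joined k A B l`: the points `A`, `B` of `J^k` are joined by a horizontal curve of length `l`.
An absolutely continuous curve with `q' = v X₁ + w X₂` almost everywhere has the length
`∫ √(v² + w²)`; concatenations are allowed. -/
inductive Joined (k : ℕ) : J k → J k → ℝ → Prop
  | arc (q : ℝ → J k) (v w : ℝ → ℝ) (a b : ℝ) (hab : a ≤ b)
      (hac : ∀ i, AbsolutelyContinuousOnInterval (fun t => q t i) a b)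
      (hhor : ∀ᵐ t, t ∈ Icc a b → ∀ i,
        HasDerivAt (fun s => q s i) (v t * X1 k (q t) i + w t * X2 k i) t) :
      Joined k (q a) (q b) (∫ t in a..b, √(v t ^ 2 + w t ^ 2))
  | trans (A B C : J k) (l l' : ℝ) (h : Joined k A B l) (h' : Joined k B C l') :
      Joined k A C (l + l')

/-- The Carnot–Carathéodory distance. -/
noncomputable def ccDist (k : ℕ) (A B : J k) : ℝ := sInf {l | Joined k A B l}

/-- The Hamiltonian `H = (⟨p, X₁⟩² + ⟨p, X₂⟩²) / 2`. -/
noncomputable def Ham (k : ℕ) (q p : J k) : ℝ :=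
  ((∑ i, p i * X1 k q i) ^ 2 + (∑ i, p i * X2 k i) ^ 2) / 2

/-- The partial derivative of `f` in the direction of the `i`-th coordinate. -/
noncomputable def pd {n : ℕ} (f : (Fin n → ℝ) → ℝ) (x : Fin n → ℝ) (i : Fin n) : ℝ :=
  deriv (fun s => f (Function.update x i s)) (x i)

/-- Geodesics: projections of solutions of Hamilton's equations on the level `H = 1/2`. -/
def IsGeodesic (k : ℕ) (γ : ℝ → J k) : Prop := ∃ p : ℝ → J k, ∀ t, Ham k (γ t) (p t) = 1 / 2 ∧
  ∀ i, HasDerivAt (fun s => γ s i) (pd (fun p' => Ham k (γ t) p') (p t) i) t ∧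
    HasDerivAt (fun s => p s i) (-pd (fun q' => Ham k q' (p t)) (γ t) i) t

/-- The cut time of `γ`, starting at the time `0`: the supremum of the `t > 0` such that the
restriction of `γ` to `[0, t]`, which has length `t`, realizes the distance. -/
noncomputable def cutTime (k : ℕ) (γ : ℝ → J k) : EReal :=
  sSup {T : EReal | ∃ t : ℝ, 0 < t ∧ ccDist k (γ 0) (γ t) = t ∧ T = t}

/-- `γ` is equi-optimal: the cut time of the shifted curves `γ_s(t) = γ(t - s)` is the same for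
all `s`. -/
def EquiOptimal (k : ℕ) (γ : ℝ → J k) : Prop :=
  ∀ s s' : ℝ, cutTime k (fun t => γ (t - s)) = cutTime k (fun t => γ (t - s'))

/-! ### Absolutely continuous functions -/

lemma ac_comp {f F : ℝ → ℝ} {a b : ℝ} (hf : AbsolutelyContinuousOnInterval f a b)
    (hF : ContDiff ℝ 1 F) : AbsolutelyContinuousOnInterval (fun t => F (f t)) a b := by
  obtain ⟨M, hM⟩ := hf.exists_bound
  obtain ⟨K, hK⟩ := (hF.contDiffOn (s := Icc (-M) M)).exists_lipschitzOnWith (by simp)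
    (convex_Icc _ _) isCompact_Icc
  unfold AbsolutelyContinuousOnInterval at hf ⊢
  have h1 := hf.const_mul (K : ℝ)
  rw [mul_zero] at h1
  refine squeeze_zero' ?_ ?_ h1
  · exact Filter.Eventually.of_forall fun _ => Finset.sum_nonneg fun i hi => dist_nonneg
  · rw [eventually_inf_principal]
    filter_upwards with E hE
    rw [Finset.mul_sum]
    apply Finset.sum_le_sum
    intro i hi
    have h2 := hE.1 i hi
    have h3 := abs_le.1 (hM _ h2.1)
    have h4 := abs_le.1 (hM _ h2.2)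
    exact hK.dist_le_mul _ ⟨h3.1, h3.2⟩ _ ⟨h4.1, h4.2⟩

/-! ### The case `k = 3` -/

lemma X1_eq (q : J 3) : X1 3 q = ![1, q 2, q 3, q 4, 0] := by
  funext i
  fin_cases i <;> simp [X1]

lemma X2_eq : X2 3 = ![0, 0, 0, 0, 1] := by
  funext i
  fin_cases i <;> simp [X2]

/-- The moments: `Φ p q` is a function on `J³` with derivative `p(x) w` along a horizontal curve,
where `p(x) = p₀ + p₁ x + p₂ x² + p₃ x³`. -/
def Phi (p : Fin 4 → ℝ) (q : J 3) : ℝ :=
  p 0 * q 4 + p 1 * (q 0 * q 4 - q 3) + p 2 * (q 0 ^ 2 * q 4 - 2 * q 0 * q 3 + 2 * q 2) +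
    p 3 * (q 0 ^ 3 * q 4 - 3 * q 0 ^ 2 * q 3 + 6 * q 0 * q 2 - 6 * q 1)

/-- The polynomial `p(x)`. -/
def ev (p : Fin 4 → ℝ) (x : ℝ) : ℝ := p 0 + p 1 * x + p 2 * x ^ 2 + p 3 * x ^ 3

lemma hasDeriv_Phi (p : Fin 4 → ℝ) {q : ℝ → J 3} {v w t : ℝ}
    (h : ∀ i, HasDerivAt (fun s => q s i) (v * X1 3 (q t) i + w * X2 3 i) t) :
    HasDerivAt (fun s => Phi p (q s)) (ev p (q t 0) * w) t := by
  rw [X1_eq, X2_eq] at h
  have h0 := h 0
  have h1 := h 1
  have h2 := h 2
  have h3 := h 3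
  have h4 := h 4
  simp at h0 h1 h2 h3 h4
  unfold Phi ev
  refine ((((h4.const_mul (p 0)).add (((h0.mul h4).sub h3).const_mul (p 1))).add
    (((((h0.pow 2).mul h4).sub ((h0.const_mul 2).mul h3)).add (h2.const_mul 2)).const_mul
    (p 2))).add ((((((h0.pow 3).mul h4).sub (((h0.pow 2).const_mul 3).mul h3)).add
    ((h0.const_mul 6).mul h2)).sub (h1.const_mul 6)).const_mul (p 3))).congr_deriv ?_
  simp
  ring

lemma ac_Phi (p : Fin 4 → ℝ) {q : ℝ → J 3} {a b : ℝ}
    (h : ∀ i, AbsolutelyContinuousOnInterval (fun t => q t i) a b) :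
    AbsolutelyContinuousOnInterval (fun s => Phi p (q s)) a b := by
  unfold Phi
  have h0 := h 0
  have h1 := h 1
  have h2 := h 2
  have h3 := h 3
  have h4 := h 4
  have s2 : AbsolutelyContinuousOnInterval (fun t => q t 0 ^ 2) a b := by
    simpa [pow_two] using h0.fun_mul h0
  have s3 : AbsolutelyContinuousOnInterval (fun t => q t 0 ^ 3) a b := by
    have := s2.fun_mul h0
    simpa [pow_succ] using this
  exact (((h4.const_mul (p 0)).fun_add (((h0.fun_mul h4).fun_sub h3).const_mul (p 1))).fun_add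
    (((((s2).fun_mul h4).fun_sub ((h0.const_mul 2).fun_mul h3)).fun_add
    (h2.const_mul 2)).const_mul (p 2))).fun_add ((((((s3).fun_mul h4).fun_sub
    (((s2).const_mul 3).fun_mul h3)).fun_add ((h0.const_mul 6).fun_mul h2)).fun_sub
    (h1.const_mul 6)).const_mul (p 3))

/-- The calibration inequality on the region `|1 - x| ≤ ρ`. -/
def Q (A B : J 3) (l ρ : ℝ) : Prop := ∀ (p : Fin 4 → ℝ) (β : ℝ → ℝ), Continuous β →
  (∀ x, |1 - x| ≤ ρ → ev p x ^ 2 + β x ^ 2 ≤ 1) →
  Phi p B - Phi p A + (∫ x in (A 0)..(B 0), β x) ≤ l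

lemma Q_mono {A B : J 3} {l ρ ρ' : ℝ} (h : Q A B l ρ) (hρ : ρ ≤ ρ') : Q A B l ρ' :=
  fun p β hβ h1 => h p β hβ fun x hx => h1 x (hx.trans hρ)

lemma Q_trans {A B C : J 3} {l l' ρ : ℝ} (h : Q A B l ρ) (h' : Q B C l' ρ) :
    Q A C (l + l') ρ := by
  intro p β hβ h1
  have e1 := h p β hβ h1
  have e2 := h' p β hβ h1
  have e3 := intervalIntegral.integral_add_adjacent_intervals
    (hβ.intervalIntegrable (μ := volume) (A 0) (B 0)) (hβ.intervalIntegrable (B 0) (C 0))
  linarith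

lemma Q_arc (q : ℝ → J 3) (v w : ℝ → ℝ) (a b : ℝ) (hab : a ≤ b)
    (hac : ∀ i, AbsolutelyContinuousOnInterval (fun t => q t i) a b)
    (hhor : ∀ᵐ t, t ∈ Icc a b → ∀ i,
      HasDerivAt (fun s => q s i) (v t * X1 3 (q t) i + w t * X2 3 i) t) {ρ : ℝ}
    (hρ : ∀ t ∈ Icc a b, |1 - q t 0| ≤ ρ) :
    Q (q a) (q b) (∫ t in a..b, √(v t ^ 2 + w t ^ 2)) ρ := by
  intro p β hβ h1
  set 𝔅 : ℝ → ℝ := fun x => ∫ y in (0 : ℝ)..x, β y with h𝔅
  have hd𝔅 : ∀ x, HasDerivAt 𝔅 (β x) x := fun x =>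
    intervalIntegral.integral_hasDerivAt_right (hβ.intervalIntegrable _ _)
      (hβ.stronglyMeasurableAtFilter _ _) hβ.continuousAt
  have hC𝔅 : ContDiff ℝ 1 𝔅 := by
    rw [contDiff_one_iff_deriv]
    refine ⟨fun x => (hd𝔅 x).differentiableAt, ?_⟩
    have : deriv 𝔅 = β := funext fun x => (hd𝔅 x).deriv
    rwa [this]
  set f : ℝ → ℝ := fun t => Phi p (q t) + 𝔅 (q t 0) with hf
  have hfac : AbsolutelyContinuousOnInterval f a b := (ac_Phi p hac).fun_add (ac_comp (hac 0) hC𝔅)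
  have hft : ∀ᵐ t, t ∈ Icc a b → HasDerivAt f (ev p (q t 0) * w t + β (q t 0) * v t) t := by
    filter_upwards [hhor] with t ht htt
    have h2 := ht htt
    have h3 := hasDeriv_Phi p h2
    have h4 := h2 0
    rw [X1_eq, X2_eq] at h4
    simp at h4
    have h6 : HasDerivAt (fun s => 𝔅 (q s 0)) (β (q t 0) * v t) t :=
      HasDerivAt.comp (h₂ := 𝔅) t (hd𝔅 (q t 0)) h4
    exact h3.add h6
  have e1 : f b - f a = Phi p (q b) - Phi p (q a) + ∫ x in (q a 0)..(q b 0), β x := by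
    have := intervalIntegral.integral_interval_sub_left (hβ.intervalIntegrable (μ := volume) 0 (q b 0))
      (hβ.intervalIntegrable 0 (q a 0))
    simp only [hf, h𝔅]
    linarith
  rw [← e1, ← hfac.integral_deriv_eq_sub]
  have hv : ∀ᵐ t, t ∈ Icc a b → deriv (fun s => q s 0) t = v t ∧
      deriv (fun s => q s 4) t = w t := by
    filter_upwards [hhor] with t ht htt
    have h2 := ht htt
    have h4 := h2 0
    have h5 := h2 4
    rw [X1_eq, X2_eq] at h4 h5
    simp at h4 h5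
    exact ⟨h4.deriv, h5.deriv⟩
  have hint0 := (hac 0).intervalIntegrable_deriv
  have hint4 := (hac 4).intervalIntegrable_deriv
  have hint : IntervalIntegrable (fun t => √(deriv (fun s => q s 0) t ^ 2 +
      deriv (fun s => q s 4) t ^ 2)) volume a b := by
    refine (hint0.norm.add hint4.norm).mono_fun ?_ ?_
    · exact (((hint0.aestronglyMeasurable_restrict_uIoc.aemeasurable.pow_const 2).add
        (hint4.aestronglyMeasurable_restrict_uIoc.aemeasurable.pow_const 2)).sqrt).aestronglyMeasurable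
    · filter_upwards with t
      rw [Real.norm_of_nonneg (sqrt_nonneg _), Real.norm_of_nonneg (by positivity)]
      apply sqrt_le_left (by positivity) |>.2
      rw [Real.norm_eq_abs, Real.norm_eq_abs]
      nlinarith [sq_abs (deriv (fun s => q s 0) t), sq_abs (deriv (fun s => q s 4) t),
        abs_nonneg (deriv (fun s => q s 0) t), abs_nonneg (deriv (fun s => q s 4) t),
        mul_nonneg (abs_nonneg (deriv (fun s => q s 0) t)) (abs_nonneg (deriv (fun s => q s 4) t))]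
  have e2 : (∫ t in a..b, √(v t ^ 2 + w t ^ 2)) = ∫ t in a..b, √(deriv (fun s => q s 0) t ^ 2 +
      deriv (fun s => q s 4) t ^ 2) := by
    apply intervalIntegral.integral_congr_ae
    filter_upwards [hv] with t ht htt
    rw [uIoc_of_le hab] at htt
    obtain ⟨h2, h3⟩ := ht ⟨htt.1.le, htt.2⟩
    rw [h2, h3]
  rw [e2]
  apply intervalIntegral.integral_mono_ae_restrict hab hfac.intervalIntegrable_deriv hint
  rw [Filter.EventuallyLE, ae_restrict_iff' measurableSet_Icc]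
  filter_upwards [hv, hft] with t ht hft htt
  obtain ⟨h2, h3⟩ := ht htt
  rw [h2, h3, (hft htt).deriv]
  have h4 := h1 (q t 0) (hρ t htt)
  apply le_sqrt_of_sq_le
  nlinarith [sq_nonneg (ev p (q t 0) * v t - β (q t 0) * w t), sq_nonneg (v t), sq_nonneg (w t)]

lemma arc_int (q : ℝ → J 3) (v w : ℝ → ℝ) (a b : ℝ) (hab : a ≤ b)
    (hac : ∀ i, AbsolutelyContinuousOnInterval (fun t => q t i) a b)
    (hhor : ∀ᵐ t, t ∈ Icc a b → ∀ i,
      HasDerivAt (fun s => q s i) (v t * X1 3 (q t) i + w t * X2 3 i) t) :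
    IntervalIntegrable (fun t => √(v t ^ 2 + w t ^ 2)) volume a b := by
  have hint0 := (hac 0).intervalIntegrable_deriv
  have hint4 := (hac 4).intervalIntegrable_deriv
  have hint : IntervalIntegrable (fun t => √(deriv (fun s => q s 0) t ^ 2 +
      deriv (fun s => q s 4) t ^ 2)) volume a b := by
    refine (hint0.norm.add hint4.norm).mono_fun ?_ ?_
    · exact (((hint0.aestronglyMeasurable_restrict_uIoc.aemeasurable.pow_const 2).add
        (hint4.aestronglyMeasurable_restrict_uIoc.aemeasurable.pow_const 2)).sqrt).aestronglyMeasurable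
    · filter_upwards with t
      rw [Real.norm_of_nonneg (sqrt_nonneg _), Real.norm_of_nonneg (by positivity)]
      apply sqrt_le_left (by positivity) |>.2
      rw [Real.norm_eq_abs, Real.norm_eq_abs]
      nlinarith [sq_abs (deriv (fun s => q s 0) t), sq_abs (deriv (fun s => q s 4) t),
        abs_nonneg (deriv (fun s => q s 0) t), abs_nonneg (deriv (fun s => q s 4) t),
        mul_nonneg (abs_nonneg (deriv (fun s => q s 0) t)) (abs_nonneg (deriv (fun s => q s 4) t))]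
  apply hint.congr_ae
  rw [Filter.EventuallyEq, ae_restrict_iff' measurableSet_uIoc]
  filter_upwards [hhor] with t ht htt
  rw [uIoc_of_le hab] at htt
  have h2 := ht ⟨htt.1.le, htt.2⟩
  have h4 := h2 0
  have h5 := h2 4
  rw [X1_eq, X2_eq] at h4 h5
  simp at h4 h5
  rw [h4.deriv, h5.deriv]

/-- Every curve has a point at the maximal distance `ρ` of `x = 1`, and the calibration
inequalities hold for both parts. -/
lemma exists_split {A B : J 3} {l : ℝ} (h : Joined 3 A B l) :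
    ∃ (ρ : ℝ) (C : J 3) (l₁ l₂ : ℝ), l₁ + l₂ = l ∧ |1 - C 0| = ρ ∧ Q A C l₁ ρ ∧ Q C B l₂ ρ := by
  induction h with
  | arc q v w a b hab hac hhor =>
    have hcont : ContinuousOn (fun t => |1 - q t 0|) (Icc a b) := by
      have := (hac 0).continuousOn
      rw [uIcc_of_le hab] at this
      exact (continuousOn_const.sub this).abs
    obtain ⟨t₁, ht₁, hmax⟩ := isCompact_Icc.exists_isMaxOn (nonempty_Icc.2 hab) hcont
    have hm : ∀ t ∈ Icc a b, |1 - q t 0| ≤ |1 - q t₁ 0| := fun t ht => hmax ht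
    have hint := arc_int q v w a b hab hac hhor
    have s1 : uIcc a t₁ ⊆ uIcc a b := by
      rw [uIcc_of_le hab, uIcc_of_le ht₁.1]
      exact Icc_subset_Icc_right ht₁.2
    have s2 : uIcc t₁ b ⊆ uIcc a b := by
      rw [uIcc_of_le hab, uIcc_of_le ht₁.2]
      exact Icc_subset_Icc_left ht₁.1
    refine ⟨|1 - q t₁ 0|, q t₁, ∫ t in a..t₁, √(v t ^ 2 + w t ^ 2),
      ∫ t in t₁..b, √(v t ^ 2 + w t ^ 2), ?_, rfl, ?_, ?_⟩
    · exact intervalIntegral.integral_add_adjacent_intervals (hint.mono_set s1)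
        (hint.mono_set s2)
    · refine Q_arc q v w a t₁ ht₁.1 (fun i => (hac i).mono s1) ?_ ?_
      · filter_upwards [hhor] with t ht htt
        exact ht ⟨htt.1, htt.2.trans ht₁.2⟩
      · exact fun t ht => hm t ⟨ht.1, ht.2.trans ht₁.2⟩
    · refine Q_arc q v w t₁ b ht₁.2 (fun i => (hac i).mono s2) ?_ ?_
      · filter_upwards [hhor] with t ht htt
        exact ht ⟨ht₁.1.trans htt.1, htt.2⟩
      · exact fun t ht => hm t ⟨ht₁.1.trans ht.1, ht.2⟩
  | trans A B C l l' h h' ih ih' =>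
    obtain ⟨ρ, D, l₁, l₂, h1, h2, h3, h4⟩ := ih
    obtain ⟨ρ', D', l₁', l₂', h1', h2', h3', h4'⟩ := ih'
    rcases le_total ρ' ρ with hle | hle
    · exact ⟨ρ, D, l₁, l₂ + (l₁' + l₂'), by linarith, h2, h3,
        Q_trans h4 (Q_trans (Q_mono h3' hle) (Q_mono h4' hle))⟩
    · exact ⟨ρ', D', l₁ + l₂ + l₁', l₂', by linarith, h2',
        Q_trans (Q_trans (Q_mono h3 hle) (Q_mono h4 hle)) h3', h4'⟩

lemma joined_nonneg {k : ℕ} {A B : J k} {l : ℝ} (h : Joined k A B l) : 0 ≤ l := by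
  induction h with
  | arc q v w a b hab hac hhor =>
    exact intervalIntegral.integral_nonneg hab fun t _ => sqrt_nonneg _
  | trans A B C l l' h h' ih ih' => exact add_nonneg ih ih'

lemma dist_le {k : ℕ} {A B : J k} {l : ℝ} (h : Joined k A B l) : ccDist k A B ≤ l :=
  csInf_le ⟨0, fun _ h' => joined_nonneg h'⟩ h

/-! ### Elementary moves -/

/-- The point of `J³` with the coordinate `x` and the moments `c`. -/
noncomputable def pt (x : ℝ) (c : Fin 4 → ℝ) : J 3 :=
  ![x, (x ^ 3 * c 0 - 3 * x ^ 2 * c 1 + 3 * x * c 2 - c 3) / 6, (x ^ 2 * c 0 - 2 * x * c 1 + c 2) / 2,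
    x * c 0 - c 1, c 0]

lemma joined_C1 (q : ℝ → J 3) (v w : ℝ → ℝ) (a b : ℝ) (hab : a ≤ b)
    (hq : ∀ i, ContDiff ℝ 1 (fun t => q t i))
    (hhor : ∀ t i, HasDerivAt (fun s => q s i) (v t * X1 3 (q t) i + w t * X2 3 i) t) {l : ℝ}
    (hl : ∀ t, √(v t ^ 2 + w t ^ 2) = l) : Joined 3 (q a) (q b) (l * (b - a)) := by
  have h := Joined.arc (k := 3) q v w a b hab
    (fun i => (hq i).contDiffOn.absolutelyContinuousOnInterval)
    (Filter.Eventually.of_forall fun t _ i => hhor t i)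
  simp only [hl, intervalIntegral.integral_const, smul_eq_mul] at h
  rwa [mul_comm] at h

lemma hasDeriv_pt {x : ℝ → ℝ} {c : ℝ → Fin 4 → ℝ} {v w t : ℝ} (hx : HasDerivAt x v t)
    (hc : ∀ j, HasDerivAt (fun s => c s j) (x t ^ (j : ℕ) * w) t) (i : Fin 5) :
    HasDerivAt (fun s => pt (x s) (c s) i) (v * X1 3 (pt (x t) (c t)) i + w * X2 3 i) t := by
  have h0 := hc 0
  have h1 := hc 1
  have h2 := hc 2
  have h3 := hc 3
  simp at h0 h1 h2 h3
  rw [X1_eq, X2_eq]
  fin_cases i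
  · simpa [pt] using hx
  · simp only [pt]
    simp
    refine ((((((hx.pow 3).mul h0).sub (((hx.pow 2).const_mul 3).mul h1)).add
      ((hx.const_mul 3).mul h2)).sub h3).div_const 6).congr_deriv ?_
    simp
    ring
  · simp only [pt]
    simp
    refine (((((hx.pow 2).mul h0).sub ((hx.const_mul 2).mul h1)).add h2).div_const
      2).congr_deriv ?_
    simp
    ring
  · simp only [pt]
    simp
    refine ((hx.mul h0).sub h1).congr_deriv ?_
    ring
  · simpa [pt] using h0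

lemma contDiff_pt {x : ℝ → ℝ} {c : ℝ → Fin 4 → ℝ} {n : WithTop ℕ∞} (hx : ContDiff ℝ n x)
    (hc : ∀ j, ContDiff ℝ n (fun s => c s j)) (i : Fin 5) :
    ContDiff ℝ n (fun s => pt (x s) (c s) i) := by
  have h0 := hc 0
  have h1 := hc 1
  have h2 := hc 2
  have h3 := hc 3
  fin_cases i <;> simp [pt] <;> fun_prop

/-- Moving `x` with fixed moments. -/
lemma move_x (x x' : ℝ) (c : Fin 4 → ℝ) : Joined 3 (pt x c) (pt x' c) |x' - x| := by
  rcases le_total x x' with h | h
  · have h1 := joined_C1 (fun t => pt t c) (fun _ => 1) (fun _ => 0) x x' h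
      (contDiff_pt contDiff_id fun j => contDiff_const)
      (fun t i => hasDeriv_pt (hasDerivAt_id t)
        (fun j => by simpa using hasDerivAt_const t (c j)) i) (l := 1) (by simp)
    rw [abs_of_nonneg (by linarith)]
    simpa using h1
  · have h1 := joined_C1 (fun t => pt (-t) c) (fun _ => -1) (fun _ => 0) (-x) (-x') (by linarith)
      (contDiff_pt contDiff_neg fun j => contDiff_const)
      (fun t i => hasDeriv_pt (hasDerivAt_neg t)
        (fun j => by simpa using hasDerivAt_const t (c j)) i) (l := 1) (by simp)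
    rw [abs_of_nonpos (by linarith)]
    simp only [neg_neg] at h1
    convert h1 using 1
    ring

/-- Vertical moves. -/
lemma move_y (x y : ℝ) (c : Fin 4 → ℝ) :
    Joined 3 (pt x c) (pt x (fun j => c j + x ^ (j : ℕ) * y)) |y| := by
  have h1 := joined_C1 (fun t => pt x (fun j => c j + x ^ (j : ℕ) * (t * y))) (fun _ => 0)
    (fun _ => y) 0 1 zero_le_one
    (contDiff_pt contDiff_const fun j => by fun_prop)
    (fun t i => hasDeriv_pt (hasDerivAt_const t x)
      (fun j => by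
        have := (((hasDerivAt_id t).mul_const y).const_mul (x ^ (j : ℕ))).const_add (c j)
        simpa using this) i) (l := |y|) (fun t => by simp [sqrt_sq_eq_abs])
  simpa using h1

/-! ### The turn-back geodesic with `G(x) = (3x - x³)/2` -/

/-- `G(x)` -/
noncomputable def G (x : ℝ) : ℝ := (3 * x - x ^ 3) / 2
/-- `K(x) = √(1 - G(x)²)` for `|x| ≤ 1`, with the sign of `1 - x²` -/
noncomputable def K (x : ℝ) : ℝ := (1 - x ^ 2) * √(4 - x ^ 2) / 2

lemma G_sq_add_K_sq {x : ℝ} (h : x ^ 2 ≤ 4) : G x ^ 2 + K x ^ 2 = 1 := by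
  unfold G K
  have h1 : √(4 - x ^ 2) ^ 2 = 4 - x ^ 2 := sq_sqrt (by linarith)
  rw [div_pow, div_pow, mul_pow, h1]
  ring

lemma continuous_K : Continuous K := by
  unfold K
  fun_prop

/-- `sinh (√3 t / 2)` -/
noncomputable def Sg (t : ℝ) : ℝ := sinh (√3 / 2 * t)

/-- The coordinate `x` of the geodesic. -/
noncomputable def xg (t : ℝ) : ℝ := 2 * Sg t / √(3 + 4 * Sg t ^ 2)

lemma xg_sq (t : ℝ) : xg t ^ 2 = 4 * Sg t ^ 2 / (3 + 4 * Sg t ^ 2) := by
  unfold xg
  rw [div_pow, sq_sqrt (by positivity)]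
  ring

lemma xg_sq_lt (t : ℝ) : xg t ^ 2 < 1 := by
  rw [xg_sq, div_lt_one (by positivity)]
  linarith

lemma xg_lt (t : ℝ) : xg t < 1 := by
  nlinarith [xg_sq_lt t]

lemma xg_neg (t : ℝ) : xg (-t) = - xg t := by
  unfold xg Sg
  rw [mul_neg, sinh_neg]
  simp
  ring

lemma xg_ge {t : ℝ} (h : 1 ≤ t) : 1 / 2 ≤ xg t := by
  have h3 : (1 : ℝ) ≤ √3 := by
    rw [show (1 : ℝ) = √1 by simp]
    exact sqrt_le_sqrt (by norm_num)
  have h4 : 1 / 2 ≤ √3 / 2 * t := by nlinarith
  have h5 : 1 / 2 ≤ Sg t := h4.trans (self_le_sinh_iff.2 (by linarith))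
  have h6 : 0 ≤ xg t := by unfold xg; positivity
  have h7 : 1 / 4 ≤ xg t ^ 2 := by
    rw [xg_sq, le_div_iff₀ (by positivity)]
    nlinarith
  nlinarith

lemma contDiff_xg : ContDiff ℝ (⊤ : ℕ∞) xg := by
  have h1 : ContDiff ℝ (⊤ : ℕ∞) Sg := by
    unfold Sg
    exact (contDiff_const.mul contDiff_id).sinh
  have h2 : ∀ t, 3 + 4 * Sg t ^ 2 ≠ 0 := fun t => by positivity
  have h3 : ∀ t, √(3 + 4 * Sg t ^ 2) ≠ 0 := fun t => (sqrt_pos.2 (by positivity)).ne'
  unfold xg
  exact (contDiff_const.mul h1).div ((contDiff_const.add (contDiff_const.mul (h1.pow 2))).sqrt h2)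
    h3

lemma hasDeriv_xg (t : ℝ) : HasDerivAt xg (K (xg t)) t := by
  set S := Sg t with hS
  set C := cosh (√3 / 2 * t) with hC
  have hCS : C ^ 2 = 1 + S ^ 2 := by
    rw [hC, hS, Sg, cosh_sq]
    ring
  have hC0 : 0 < C := cosh_pos _
  have h3 : √3 ^ 2 = 3 := sq_sqrt (by norm_num)
  have h30 : 0 < √3 := sqrt_pos.2 (by norm_num)
  set D := √(3 + 4 * S ^ 2) with hD
  have hD2 : D ^ 2 = 3 + 4 * S ^ 2 := sq_sqrt (by positivity)
  have hD0 : 0 < D := sqrt_pos.2 (by positivity)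
  have hSd : HasDerivAt Sg (C * (√3 / 2)) t := by
    have h1 : HasDerivAt (fun t : ℝ => √3 / 2 * t) (√3 / 2) t := by
      simpa using (hasDerivAt_id t).const_mul (√3 / 2)
    exact h1.sinh
  have hDd : HasDerivAt (fun t => √(3 + 4 * Sg t ^ 2)) (4 * S * (C * (√3 / 2)) / D) t := by
    have h1 := (((hSd.pow 2).const_mul 4).const_add 3).sqrt
      (show 3 + 4 * (Sg ^ 2) t ≠ 0 by simp only [Pi.pow_apply]; positivity)
    refine h1.congr_deriv ?_
    simp only [Pi.pow_apply, ← hS]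
    rw [← hD]
    field_simp
    ring
  have h1 := (hSd.const_mul 2).div hDd hD0.ne'
  refine h1.congr_deriv ?_
  have hx : xg t = 2 * S / D := rfl
  have hx2 : xg t ^ 2 = 4 * S ^ 2 / D ^ 2 := by rw [hx]; ring
  have e1 : 1 - xg t ^ 2 = 3 / D ^ 2 := by
    rw [hx2]
    field_simp
    linarith
  have e2 : √(4 - xg t ^ 2) = 2 * √3 * C / D := by
    have : 4 - xg t ^ 2 = (2 * √3 * C / D) ^ 2 := by
      rw [hx2]
      field_simp
      rw [h3, hCS, hD2]
      ring
    rw [this]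
    exact sqrt_sq (by positivity)
  unfold K
  rw [e1, e2]
  simp only [← hS, ← hD]
  field_simp
  rw [hD2]
  ring

lemma hasDeriv_Kx (t : ℝ) : HasDerivAt (fun t => K (xg t)) (-(G (xg t) * ((3 - 3 * xg t ^ 2) / 2)))
    t := by
  have hx := hasDeriv_xg t
  have hlt := xg_sq_lt t
  have h4 : 0 < 4 - xg t ^ 2 := by linarith
  set x := xg t with hxdef
  have hr0 : 0 < √(4 - x ^ 2) := sqrt_pos.2 h4
  have hr2 : √(4 - x ^ 2) ^ 2 = 4 - x ^ 2 := sq_sqrt h4.le
  have h1 := ((((hx.pow 2).const_sub 1).mul (((hx.pow 2).const_sub 4).sqrt h4.ne')).div_const 2)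
  refine h1.congr_deriv ?_
  simp only [Pi.pow_apply, ← hxdef]
  unfold G K
  set r := √(4 - x ^ 2)
  field_simp
  push_cast
  ring_nf
  simp only [hr2]
  ring

/-- The moments of the geodesic. -/
noncomputable def cg (t : ℝ) (j : Fin 4) : ℝ := ∫ s in (0 : ℝ)..t, xg s ^ (j : ℕ) * G (xg s)

lemma cont_integrand (j : ℕ) : Continuous (fun s => xg s ^ j * G (xg s)) := by
  have := contDiff_xg.continuous
  unfold G
  fun_prop

lemma hasDeriv_cg (t : ℝ) (j : Fin 4) :
    HasDerivAt (fun s => cg s j) (xg t ^ (j : ℕ) * G (xg t)) t :=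
  intervalIntegral.integral_hasDerivAt_right ((cont_integrand j).intervalIntegrable _ _)
    ((cont_integrand j).stronglyMeasurableAtFilter _ _) (cont_integrand j).continuousAt

lemma contDiff_cg (j : Fin 4) : ContDiff ℝ 1 (fun s => cg s j) := by
  rw [contDiff_one_iff_deriv]
  refine ⟨fun t => (hasDeriv_cg t j).differentiableAt, ?_⟩
  have : deriv (fun s => cg s j) = fun t => xg t ^ (j : ℕ) * G (xg t) :=
    funext fun t => (hasDeriv_cg t j).deriv
  rw [this]
  exact cont_integrand j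

/-- The geodesic. -/
noncomputable def geo (t : ℝ) : J 3 := pt (xg t) (cg t)

lemma hasDeriv_geo (t : ℝ) (i : Fin 5) : HasDerivAt (fun s => geo s i)
    (K (xg t) * X1 3 (geo t) i + G (xg t) * X2 3 i) t :=
  hasDeriv_pt (hasDeriv_xg t) (fun j => hasDeriv_cg t j) i

lemma geo_zero (t : ℝ) : geo t 0 = xg t := by simp [geo, pt]

lemma Ham_eq (q p : J 3) : Ham 3 q p =
    ((p 0 + p 1 * q 2 + p 2 * q 3 + p 3 * q 4) ^ 2 + p 4 ^ 2) / 2 := by
  unfold Ham
  rw [X1_eq, X2_eq, Fin.sum_univ_five, Fin.sum_univ_five]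
  simp

lemma deriv_quad (a b c d s : ℝ) : deriv (fun s : ℝ => ((a * s + b) ^ 2 + (c * s + d) ^ 2) / 2) s =
    (a * s + b) * a + (c * s + d) * c := by
  have h1 : HasDerivAt (fun s : ℝ => a * s + b) a s := by
    simpa using ((hasDerivAt_id s).const_mul a).add_const b
  have h2 : HasDerivAt (fun s : ℝ => c * s + d) c s := by
    simpa using ((hasDerivAt_id s).const_mul c).add_const d
  have h3 : HasDerivAt (fun s : ℝ => ((a * s + b) ^ 2 + (c * s + d) ^ 2) / 2) _ s :=
    ((h1.pow 2).add (h2.pow 2)).div_const 2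
  rw [h3.deriv]
  simp
  ring

lemma pd_aux {f : (Fin 5 → ℝ) → ℝ} {x : Fin 5 → ℝ} {i : Fin 5} (a b c d : ℝ)
    (h : ∀ s, f (Function.update x i s) = ((a * s + b) ^ 2 + (c * s + d) ^ 2) / 2) :
    pd f x i = (a * x i + b) * a + (c * x i + d) * c := by
  unfold pd
  have : (fun s => f (Function.update x i s)) = fun s => ((a * s + b) ^ 2 + (c * s + d) ^ 2) / 2 :=
    funext h
  rw [this, deriv_quad]

lemma pd_p (q p : J 3) (i : Fin 5) : pd (fun p' => Ham 3 q p') p i =
    (p 0 + p 1 * q 2 + p 2 * q 3 + p 3 * q 4) * X1 3 q i + p 4 * X2 3 i := by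
  rw [X1_eq, X2_eq]
  simp only [Ham_eq]
  fin_cases i
  · rw [pd_aux 1 (p 1 * q 2 + p 2 * q 3 + p 3 * q 4) 0 (p 4)
      (fun s => by simp [Function.update]; ring)]
    simp
    ring
  · rw [pd_aux (q 2) (p 0 + p 2 * q 3 + p 3 * q 4) 0 (p 4)
      (fun s => by simp [Function.update]; ring)]
    simp
    first | ring1 | (left; ring1)
  · rw [pd_aux (q 3) (p 0 + p 1 * q 2 + p 3 * q 4) 0 (p 4)
      (fun s => by simp [Function.update]; ring)]
    simp
    first | ring1 | (left; ring1)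
  · rw [pd_aux (q 4) (p 0 + p 1 * q 2 + p 2 * q 3) 0 (p 4)
      (fun s => by simp [Function.update]; ring)]
    simp
    first | ring1 | (left; ring1)
  · rw [pd_aux 0 (p 0 + p 1 * q 2 + p 2 * q 3 + p 3 * q 4) 1 0
      (fun s => by simp [Function.update])]
    simp

lemma pd_q (q p : J 3) (i : Fin 5) : pd (fun q' => Ham 3 q' p) q i =
    (p 0 + p 1 * q 2 + p 2 * q 3 + p 3 * q 4) * ![0, 0, p 1, p 2, p 3] i := by
  simp only [Ham_eq]
  fin_cases i
  · rw [pd_aux 0 (p 0 + p 1 * q 2 + p 2 * q 3 + p 3 * q 4) 0 (p 4)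
      (fun s => by simp [Function.update])]
    simp
  · rw [pd_aux 0 (p 0 + p 1 * q 2 + p 2 * q 3 + p 3 * q 4) 0 (p 4)
      (fun s => by simp [Function.update])]
    simp
  · rw [pd_aux (p 1) (p 0 + p 2 * q 3 + p 3 * q 4) 0 (p 4)
      (fun s => by simp [Function.update]; ring)]
    simp
    first | ring1 | (left; ring1)
  · rw [pd_aux (p 2) (p 0 + p 1 * q 2 + p 3 * q 4) 0 (p 4)
      (fun s => by simp [Function.update]; ring)]
    simp
    first | ring1 | (left; ring1)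
  · rw [pd_aux (p 3) (p 0 + p 1 * q 2 + p 2 * q 3) 0 (p 4)
      (fun s => by simp [Function.update]; ring)]
    simp
    first | ring1 | (left; ring1)

/-- The covector of the geodesic. -/
noncomputable def pg (t : ℝ) : J 3 :=
  ![K (xg t) - (geo t 2 * 3 + geo t 3 * (-3 * xg t) + geo t 4 * (-((3 - 3 * xg t ^ 2) / 2))),
    3, -3 * xg t, -((3 - 3 * xg t ^ 2) / 2), G (xg t)]

lemma pg_sum (t : ℝ) : pg t 0 + pg t 1 * geo t 2 + pg t 2 * geo t 3 + pg t 3 * geo t 4 =
    K (xg t) := by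
  simp [pg]
  ring

lemma isGeodesic_geo : IsGeodesic 3 geo := by
  refine ⟨pg, fun t => ⟨?_, fun i => ⟨?_, ?_⟩⟩⟩
  · rw [Ham_eq, pg_sum]
    have h4 : pg t 4 = G (xg t) := by simp [pg]
    rw [h4]
    have := G_sq_add_K_sq (x := xg t) (by linarith [xg_sq_lt t])
    linarith
  · rw [pd_p, pg_sum]
    have h4 : pg t 4 = G (xg t) := by simp [pg]
    rw [h4]
    exact hasDeriv_geo t i
  · rw [pd_q, pg_sum]
    have hx := hasDeriv_xg t
    have hK := hasDeriv_Kx t
    have g2 := hasDeriv_geo t 2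
    have g3 := hasDeriv_geo t 3
    have g4 := hasDeriv_geo t 4
    rw [X1_eq, X2_eq] at g2 g3 g4
    simp at g2 g3 g4
    have hG' : HasDerivAt (fun t => G (xg t)) ((3 - 3 * xg t ^ 2) / 2 * K (xg t)) t := by
      unfold G
      refine (((hx.const_mul 3).sub (hx.pow 3)).div_const 2).congr_deriv ?_
      simp
      ring
    have hx2 : HasDerivAt (fun t => -((3 - 3 * xg t ^ 2) / 2)) (3 * xg t * K (xg t)) t := by
      refine (((((hx.pow 2).const_mul 3).const_sub 3).div_const 2).neg).congr_deriv ?_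
      simp
      ring
    have h1 : pg t 1 = 3 := by simp [pg]
    have h2 : pg t 2 = -3 * xg t := by simp [pg]
    have h3 : pg t 3 = -((3 - 3 * xg t ^ 2) / 2) := by simp [pg]
    fin_cases i
    · show HasDerivAt (fun s => K (xg s) - (geo s 2 * 3 + geo s 3 * (-3 * xg s) +
        geo s 4 * (-((3 - 3 * xg s ^ 2) / 2)))) _ t
      refine (hK.sub (((g2.mul_const 3).add (g3.mul (hx.const_mul (-3)))).add
        (g4.mul hx2))).congr_deriv ?_
      simp
      ring
    · show HasDerivAt (fun s => (3 : ℝ)) _ t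
      refine (hasDerivAt_const t (3 : ℝ)).congr_deriv ?_
      simp
    · show HasDerivAt (fun s => -3 * xg s) _ t
      refine (hx.const_mul (-3)).congr_deriv ?_
      simp [h1]
      ring
    · show HasDerivAt (fun s => -((3 - 3 * xg s ^ 2) / 2)) _ t
      refine hx2.congr_deriv ?_
      simp [h2]
      ring
    · show HasDerivAt (fun s => G (xg s)) _ t
      refine hG'.congr_deriv ?_
      simp [h3]
      ring

/-! ### The geodesic is not minimizing on `[-30, 30]` -/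

lemma G_neg (x : ℝ) : G (-x) = - G x := by
  unfold G
  ring

lemma cg_neg (t : ℝ) (j : Fin 4) : cg (-t) j = (-1) ^ (j : ℕ) * cg t j := by
  unfold cg
  have h1 : (∫ s in (0 : ℝ)..(-t), xg s ^ (j : ℕ) * G (xg s)) =
      - ∫ s in (0 : ℝ)..t, xg (-s) ^ (j : ℕ) * G (xg (-s)) := by
    rw [intervalIntegral.integral_comp_neg (fun s => xg s ^ (j : ℕ) * G (xg s)), neg_zero,
      intervalIntegral.integral_symm]
  rw [h1, ← intervalIntegral.integral_const_mul, ← intervalIntegral.integral_neg]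
  apply intervalIntegral.integral_congr
  intro s _
  simp only [xg_neg, G_neg]
  rw [neg_pow]
  ring

lemma xG_mem {x : ℝ} (h : x ^ 2 < 1) : 0 ≤ x * G x ∧ x * G x ≤ 1 := by
  unfold G
  have h0 := sq_nonneg x
  have e : x * ((3 * x - x ^ 3) / 2) = x ^ 2 * (3 - x ^ 2) / 2 := by ring
  rw [e]
  constructor <;> nlinarith

lemma cg_bound {t : ℝ} (ht : 0 ≤ t) (j : Fin 4) (hj : j = 1 ∨ j = 3) :
    0 ≤ cg t j ∧ cg t j ≤ t := by
  have hint : ∀ s, 0 ≤ xg s ^ (j : ℕ) * G (xg s) ∧ xg s ^ (j : ℕ) * G (xg s) ≤ 1 := by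
    intro s
    have h1 := xG_mem (xg_sq_lt s)
    have h2 := xg_sq_lt s
    have h3 := sq_nonneg (xg s)
    rcases hj with rfl | rfl
    · simpa using h1
    · have e : xg s ^ ((3 : Fin 4) : ℕ) * G (xg s) = xg s ^ 2 * (xg s * G (xg s)) := by
        show xg s ^ 3 * G (xg s) = _
        ring
      rw [e]
      constructor
      · exact mul_nonneg h3 h1.1
      · nlinarith [h1.1, h1.2]
  constructor
  · exact intervalIntegral.integral_nonneg ht fun s _ => (hint s).1
  · have h1 := intervalIntegral.integral_mono_on ht ((cont_integrand j).intervalIntegrable 0 t)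
      (continuous_const.intervalIntegrable (μ := volume) 0 t) (fun s _ => (hint s).2)
    simpa [cg] using h1

/-- A shorter curve between `γ(-30)` and `γ(30)`. -/
lemma shortcut : ∃ l, l < 60 ∧ Joined 3 (geo (-30)) (geo 30) l := by
  set τ : ℝ := 30 with hτ
  set b := xg τ with hb
  have hb1 : b < 1 := xg_lt τ
  have hb0 : 1 / 2 ≤ b := xg_ge (by norm_num)
  have c1 := cg_bound (t := τ) (by norm_num) 1 (Or.inl rfl)
  have c3 := cg_bound (t := τ) (by norm_num) 3 (Or.inr rfl)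
  set y1 : ℝ := (64 * cg τ 1 - cg τ 3) / 192 with hy1
  set y2 : ℝ := (cg τ 3 - 16 * cg τ 1) / 384 with hy2
  have hy1b : |y1| ≤ 10 := by
    rw [abs_le, hy1]
    constructor <;> linarith [c1.1, c1.2, c3.1, c3.2]
  have hy2b : |y2| ≤ 5 / 4 := by
    rw [abs_le, hy2]
    constructor <;> linarith [c1.1, c1.2, c3.1, c3.2]
  have m1 := move_x (-b) (-4) (cg (-τ))
  have m2 := move_y (-4) (-y1) (cg (-τ))
  have m3 := move_x (-4) (-8) (fun j => cg (-τ) j + (-4) ^ (j : ℕ) * (-y1))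
  have m4 := move_y (-8) (-y2) (fun j => cg (-τ) j + (-4) ^ (j : ℕ) * (-y1))
  have m5 := move_x (-8) 8 (fun j => cg (-τ) j + (-4) ^ (j : ℕ) * (-y1) + (-8) ^ (j : ℕ) * (-y2))
  have m6 := move_y 8 y2 (fun j => cg (-τ) j + (-4) ^ (j : ℕ) * (-y1) + (-8) ^ (j : ℕ) * (-y2))
  have m7 := move_x 8 4 (fun j => cg (-τ) j + (-4) ^ (j : ℕ) * (-y1) + (-8) ^ (j : ℕ) * (-y2) +
    8 ^ (j : ℕ) * y2)
  have m8 := move_y 4 y1 (fun j => cg (-τ) j + (-4) ^ (j : ℕ) * (-y1) + (-8) ^ (j : ℕ) * (-y2) +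
    8 ^ (j : ℕ) * y2)
  have m9 := move_x 4 b (fun j => cg (-τ) j + (-4) ^ (j : ℕ) * (-y1) + (-8) ^ (j : ℕ) * (-y2) +
    8 ^ (j : ℕ) * y2 + 4 ^ (j : ℕ) * y1)
  have hfinal : (fun j : Fin 4 => cg (-τ) j + (-4) ^ (j : ℕ) * (-y1) + (-8) ^ (j : ℕ) * (-y2) +
      8 ^ (j : ℕ) * y2 + 4 ^ (j : ℕ) * y1) = cg τ := by
    funext j
    rw [cg_neg, hy1, hy2]
    fin_cases j <;> simp <;> ring
  rw [hfinal] at m8 m9
  have hstart : pt (-b) (cg (-τ)) = geo (-τ) := by
    unfold geo
    rw [xg_neg]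
  rw [hstart] at m1
  have hend : pt b (cg τ) = geo τ := rfl
  rw [hend] at m9
  refine ⟨_, ?_, ((((((((m1.trans _ _ _ _ _ m2).trans _ _ _ _ _ m3).trans _ _ _ _ _ m4).trans
    _ _ _ _ _ m5).trans _ _ _ _ _ m6).trans _ _ _ _ _ m7).trans _ _ _ _ _ m8).trans
    _ _ _ _ _ m9)⟩
  have e1 : |(-4 : ℝ) - -b| = 4 - b := by rw [abs_of_nonpos (by linarith)]; ring
  have e2 : |b - 4| = 4 - b := by rw [abs_of_nonpos (by linarith)]; ring
  have e3 : |(-8 : ℝ) - -4| = 4 := by norm_num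
  have e4 : |(8 : ℝ) - -8| = 16 := by norm_num
  have e5 : |(4 : ℝ) - 8| = 4 := by norm_num
  rw [e1, e2, e3, e4, e5, abs_neg, abs_neg]
  linarith

/-! ### The geodesic is a ray from the time `1` on -/

lemma joined_geo {a b : ℝ} (hab : a ≤ b) : Joined 3 (geo a) (geo b) (b - a) := by
  have h := joined_C1 geo (fun t => K (xg t)) (fun t => G (xg t)) a b hab
    (contDiff_pt (contDiff_xg.of_le (by exact_mod_cast le_top)) contDiff_cg) (fun t i => hasDeriv_geo t i)
    (l := 1) (fun t => by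
      have := G_sq_add_K_sq (x := xg t) (by linarith [xg_sq_lt t])
      rw [show K (xg t) ^ 2 + G (xg t) ^ 2 = 1 by linarith, sqrt_one])
  rwa [one_mul] at h

/-- The cubic polynomial `G`. -/
noncomputable def pG : Fin 4 → ℝ := ![0, 3 / 2, 0, -1 / 2]
/-- The quadratic polynomial `1 - (1 - x)²/ρ²`. -/
noncomputable def pR (ρ : ℝ) : Fin 4 → ℝ := ![1 - 1 / ρ ^ 2, 2 / ρ ^ 2, -1 / ρ ^ 2, 0]

lemma ev_pG (x : ℝ) : ev pG x = G x := by
  simp [ev, pG, G]
  ring

lemma ev_pR (ρ x : ℝ) : ev (pR ρ) x = 1 - (1 - x) ^ 2 / ρ ^ 2 := by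
  simp [ev, pR]
  ring

lemma hasDeriv_Phi_geo (p : Fin 4 → ℝ) (t : ℝ) :
    HasDerivAt (fun s => Phi p (geo s)) (ev p (xg t) * G (xg t)) t := by
  have := hasDeriv_Phi p (fun i => hasDeriv_geo t i)
  rwa [geo_zero] at this

/-- The calibration of the geodesic. -/
lemma calibrate_geo (a b : ℝ) : Phi pG (geo b) - Phi pG (geo a) +
    (∫ x in (geo a 0)..(geo b 0), K x) = b - a := by
  rw [geo_zero, geo_zero]
  have hd : ∀ t, HasDerivAt (fun t => Phi pG (geo t) + (∫ x in (xg a)..(xg t), K x) - t) 0 t := by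
    intro t
    have h1 : HasDerivAt (fun y => ∫ x in (xg a)..y, K x) (K (xg t)) (xg t) :=
      intervalIntegral.integral_hasDerivAt_right (continuous_K.intervalIntegrable _ _)
        (continuous_K.stronglyMeasurableAtFilter _ _) continuous_K.continuousAt
    have h2 : HasDerivAt (fun t => ∫ x in (xg a)..(xg t), K x) (K (xg t) * K (xg t)) t :=
      HasDerivAt.comp (h₂ := fun y => ∫ x in (xg a)..y, K x) t h1 (hasDeriv_xg t)
    refine (((hasDeriv_Phi_geo pG t).add h2).sub (hasDerivAt_id t)).congr_deriv ?_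
    rw [ev_pG]
    have := G_sq_add_K_sq (x := xg t) (by linarith [xg_sq_lt t])
    linarith
  have h3 := is_const_of_deriv_eq_zero (fun t => (hd t).differentiableAt)
    (fun t => (hd t).deriv) b a
  simp only [intervalIntegral.integral_same] at h3
  linarith

lemma K_ge {x : ℝ} (h0 : 1 / 2 ≤ x) (h1 : x < 1) : 1 - x ≤ K x := by
  unfold K
  have h2 : 4 / 3 ≤ √(4 - x ^ 2) := by
    apply le_sqrt_of_sq_le
    nlinarith
  have h3 : 0 < 1 - x := by linarith
  have e : (1 - x ^ 2) * √(4 - x ^ 2) / 2 = (1 - x) * ((1 + x) * √(4 - x ^ 2) / 2) := by ring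
  rw [e]
  have h4 : 1 ≤ (1 + x) * √(4 - x ^ 2) / 2 := by nlinarith
  nlinarith

lemma moment_bound {ρ : ℝ} (hρ : 1 ≤ ρ) {T : ℝ} (hT : 0 ≤ T) :
    T ≤ Phi (pR ρ) (geo (1 + T)) - Phi (pR ρ) (geo 1) + 5 / 16 := by
  set g : ℝ → ℝ := fun t => t - Phi (pR ρ) (geo t) + 5 / 4 * (1 - xg t) ^ 2 with hg
  have hd : ∀ t, HasDerivAt g (1 - ev (pR ρ) (xg t) * G (xg t) -
      5 / 2 * (1 - xg t) * K (xg t)) t := by
    intro t
    refine (((hasDerivAt_id t).sub (hasDeriv_Phi_geo (pR ρ) t)).add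
      ((((hasDeriv_xg t).const_sub 1).pow 2).const_mul (5 / 4))).congr_deriv ?_
    simp
    ring
  have hanti : AntitoneOn g (Ici 1) := by
    apply antitoneOn_of_deriv_nonpos (convex_Ici _)
    · exact fun t _ => (hd t).continuousAt.continuousWithinAt
    · exact fun t _ => (hd t).differentiableAt.differentiableWithinAt
    · intro t ht
      rw [interior_Ici] at ht
      rw [(hd t).deriv, ev_pR]
      have h1 := xg_ge (le_of_lt ht)
      have h2 := xg_lt t
      have h3 := K_ge h1 h2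
      set x := xg t
      have hG0 : 0 ≤ G x := by
        unfold G
        nlinarith [mul_nonneg (by linarith : (0 : ℝ) ≤ x) (by nlinarith : (0 : ℝ) ≤ 3 - x ^ 2)]
      have hG1 : 1 - G x ≤ 3 / 2 * (1 - x) ^ 2 := by
        unfold G
        nlinarith [mul_nonneg (sq_nonneg (1 - x)) (by linarith : (0 : ℝ) ≤ 1 - x)]
      have hG2 : G x ≤ 1 := by
        unfold G
        nlinarith [mul_nonneg (sq_nonneg (1 - x)) (by linarith : (0 : ℝ) ≤ 2 + x)]
      have hz : (1 - x) ^ 2 / ρ ^ 2 ≤ (1 - x) ^ 2 := by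
        apply div_le_self (sq_nonneg _)
        nlinarith
      have hz0 : 0 ≤ (1 - x) ^ 2 / ρ ^ 2 := by positivity
      nlinarith [mul_nonneg hz0 hG0, mul_le_mul_of_nonneg_left h3 (by linarith : (0 : ℝ) ≤ 1 - x)]
  have h1 := hanti (mem_Ici.2 (le_refl 1)) (mem_Ici.2 (by linarith : (1 : ℝ) ≤ 1 + T))
    (by linarith)
  simp only [hg] at h1
  have h2 := xg_ge (le_refl 1)
  have h3 := xg_lt 1
  nlinarith [sq_nonneg (1 - xg (1 + T))]

lemma ray {T l : ℝ} (hT : 0 ≤ T) (h : Joined 3 (geo 1) (geo (1 + T)) l) : T ≤ l := by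
  obtain ⟨ρ, C, l₁, l₂, hl, hC, h1, h2⟩ := exists_split h
  rcases le_total ρ 1 with hρ | hρ
  · -- calibration by `G`
    have h3 := Q_trans (Q_mono h1 hρ) (Q_mono h2 hρ) pG K continuous_K (fun x hx => by
      rw [ev_pG]
      rw [abs_le] at hx
      have h4 : x ^ 2 ≤ 4 := by nlinarith
      exact (G_sq_add_K_sq h4).le)
    rw [calibrate_geo, hl] at h3
    linarith
  · -- calibration by `1 - (1-x)²/ρ²`
    have hρ0 : 0 < ρ := by linarith
    have hadm : ∀ x, |1 - x| ≤ ρ → ev (pR ρ) x ^ 2 + (-((1 - x) / ρ)) ^ 2 ≤ 1 := by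
      intro x hx
      rw [ev_pR]
      have e : (-((1 - x) / ρ)) ^ 2 = (1 - x) ^ 2 / ρ ^ 2 := by rw [neg_sq, div_pow]
      rw [e]
      have hz1 : (1 - x) ^ 2 / ρ ^ 2 ≤ 1 := by
        rw [div_le_one (by positivity)]
        exact sq_le_sq' (by linarith [(abs_le.1 hx).1]) (abs_le.1 hx).2
      have hz0 : 0 ≤ (1 - x) ^ 2 / ρ ^ 2 := by positivity
      nlinarith
    have hint : ∀ a b : ℝ, (∫ x in a..b, -((1 - x) / ρ)) = ((1 - b) ^ 2 - (1 - a) ^ 2) / (2 * ρ) := by
      intro a b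
      have hd : ∀ x ∈ uIcc a b, HasDerivAt (fun x => (1 - x) ^ 2 / (2 * ρ)) (-((1 - x) / ρ)) x := by
        intro x _
        refine ((((hasDerivAt_id x).const_sub 1).pow 2).div_const (2 * ρ)).congr_deriv ?_
        simp
        field_simp
      rw [intervalIntegral.integral_eq_sub_of_hasDerivAt hd
        (Continuous.intervalIntegrable (by fun_prop) _ _)]
      ring
    have h3 := h1 (pR ρ) (fun x => -((1 - x) / ρ)) (by fun_prop) hadm
    have h4 := h2 (pR ρ) (fun x => (1 - x) / ρ) (by fun_prop) (fun x hx => by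
      have := hadm x hx
      rwa [neg_sq] at this)
    have h5 : (∫ x in (C 0)..(geo (1 + T) 0), (1 - x) / ρ) =
        -(((1 - geo (1 + T) 0) ^ 2 - (1 - C 0) ^ 2) / (2 * ρ)) := by
      rw [← hint, ← intervalIntegral.integral_neg]
      simp
    rw [hint] at h3
    rw [h5] at h4
    have hC2 : (1 - C 0) ^ 2 = ρ ^ 2 := by rw [← hC, sq_abs]
    rw [hC2, geo_zero] at h3 h4
    have h6 := moment_bound hρ hT
    have a1 := xg_ge (le_refl (1 : ℝ))
    have a2 := xg_lt 1
    have b1 := xg_ge (by linarith : (1 : ℝ) ≤ 1 + T)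
    have b2 := xg_lt (1 + T)
    have h7 : 3 / 8 ≤ (ρ ^ 2 - (1 - xg 1) ^ 2) / (2 * ρ) := by
      rw [le_div_iff₀ (by positivity)]
      nlinarith
    have h8 : 3 / 8 ≤ -(((1 - xg (1 + T)) ^ 2 - ρ ^ 2) / (2 * ρ)) := by
      rw [← neg_div, neg_sub, le_div_iff₀ (by positivity)]
      nlinarith
    linarith

/-! ### The result -/

lemma dist_ray {T : ℝ} (hT : 0 ≤ T) : ccDist 3 (geo 1) (geo (1 + T)) = T := by
  have hj : Joined 3 (geo 1) (geo (1 + T)) T := by
    have := joined_geo (show (1 : ℝ) ≤ 1 + T by linarith)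
    rwa [add_sub_cancel_left] at this
  exact le_antisymm (dist_le hj) (le_csInf ⟨T, hj⟩ fun l hl => ray hT hl)

/-- Q1 is false: for some `k ≥ 1` (here `k = 3`) there is a geodesic of `J^k` which is not
equi-optimal. -/
theorem result : ∃ k : ℕ, 1 ≤ k ∧ ∃ γ : ℝ → J k, IsGeodesic k γ ∧ ¬ EquiOptimal k γ := by
  refine ⟨3, by norm_num, geo, isGeodesic_geo, fun h => ?_⟩
  have h1 : cutTime 3 (fun t => geo (t - (-1))) = ⊤ := by
    unfold cutTime
    rw [sSup_eq_top]
    intro b hb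
    obtain ⟨r, hr⟩ : ∃ r : ℝ, b < (r : EReal) := by
      rcases EReal.lt_iff_exists_real_btwn.1 hb with ⟨r, hr, _⟩
      exact ⟨r, hr⟩
    refine ⟨((max r 1 : ℝ) : EReal), ⟨max r 1, by positivity, ?_, rfl⟩, hr.trans_le ?_⟩
    · have := dist_ray (T := max r 1) (by positivity)
      simpa [add_comm] using this
    · exact_mod_cast le_max_left r 1
  have h2 : cutTime 3 (fun t => geo (t - 30)) ≤ ((60 : ℝ) : EReal) := by
    unfold cutTime
    apply sSup_le
    rintro _ ⟨t, ht0, ht, rfl⟩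
    by_contra hlt
    push Not at hlt
    have hlt' : (60 : ℝ) < t := by exact_mod_cast hlt
    obtain ⟨l, hl, hj⟩ := shortcut
    have hj2 := joined_geo (show (30 : ℝ) ≤ t - 30 by linarith)
    have h3 := dist_le (hj.trans _ _ _ _ _ hj2)
    simp only [zero_sub] at ht
    rw [ht] at h3
    linarith
  have h3 := h (-1) 30
  rw [h1] at h3
  rw [← h3] at h2
  exact absurd h2 (by simp)

end Pool.Agent.Results.MP_8ed827_gt.NotEquiOptimal
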